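import Mathlib
import Pool.Agent.U398.MV.Stm8

set_option autoImplicit false

/-!
# Project MV8, package GM: the second moment of the linear component (helper411)
-/

namespace Pool.Agent.U411.MV8

open MeasureTheory Filter Topology Set
open Pool.Agent.U398.MV

noncomputable section

/-- the window -/
abbrev mw (l : ℝ) : Measure ℝ := volume.restrict (Ioc (0 : ℝ) l)

/-- the big interval -/
abbrev mt (T : ℝ) : Measure ℝ := volume.restrict (Ioc T (2 * T))

instance (l : ℝ) : IsFiniteMeasure (mw l) := ⟨by simp [mw]⟩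

instance (T : ℝ) : IsFiniteMeasure (mt T) := ⟨by simp [mt]⟩

/-- the weight -/
def w (l x : ℝ) : ℝ := x - l / 2

theorem w_meas (l : ℝ) : Measurable (w l) := by unfold w; fun_prop

theorem w_bd {l x : ℝ} (hx : x ∈ Ioc (0 : ℝ) l) : |w l x| ≤ l / 2 := by
  unfold w
  rw [abs_le]
  constructor <;> linarith [hx.1, hx.2]

theorem w_int {l : ℝ} (hl : 0 < l) : ∫ x, w l x ∂(mw l) = 0 := by
  rw [← intervalIntegral.integral_of_le hl.le]
  unfold w
  rw [intervalIntegral.integral_sub (by simp) (by simp)]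
  simp
  ring

theorem ibd {α : Type*} [MeasurableSpace α] {μ : Measure α} [IsFiniteMeasure μ] {f : α → ℝ} (hf : Measurable f)
    (C : ℝ) (h : ∀ᵐ x ∂μ, |f x| ≤ C) : Integrable f μ :=
  Integrable.of_bound hf.aestronglyMeasurable C h

section core

variable {s : ℝ → ℝ} {M T l : ℝ}

theorem ae1 {P : ℝ → Prop} (h : ∀ x ∈ Ioc (0 : ℝ) l, P x) : ∀ᵐ x ∂(mw l), P x :=
  ae_restrict_of_forall_mem measurableSet_Ioc h

theorem ae2 {P : ℝ × ℝ → Prop} (h : ∀ x ∈ Ioc (0 : ℝ) l, ∀ y ∈ Ioc (0 : ℝ) l, P (x, y)) :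
    ∀ᵐ p ∂((mw l).prod (mw l)), P p := by
  rw [Measure.prod_restrict]
  exact ae_restrict_of_forall_mem (measurableSet_Ioc.prod measurableSet_Ioc) fun p hp => h p.1 hp.1 p.2 hp.2

theorem ae3 {P : ℝ × (ℝ × ℝ) → Prop} (h : ∀ t ∈ Ioc T (2 * T), ∀ x ∈ Ioc (0 : ℝ) l, ∀ y ∈ Ioc (0 : ℝ) l, P (t, (x, y))) :
    ∀ᵐ p ∂((mt T).prod ((mw l).prod (mw l))), P p := by
  rw [Measure.prod_restrict, Measure.prod_restrict]
  exact ae_restrict_of_forall_mem (measurableSet_Ioc.prod (measurableSet_Ioc.prod measurableSet_Ioc))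
    fun p hp => h p.1 hp.1 p.2.1 hp.2.1 p.2.2 hp.2.2

theorem sq_eq (hs : Measurable s) (hl : 0 < l)
    (hM : ∀ u, T ≤ u → u ≤ 2 * T + l → |s u| ≤ M) {t : ℝ} (ht : t ∈ Ioc T (2 * T)) :
    (∫ x, w l x * s (t + x) ∂(mw l)) ^ 2 =
      ∫ p, -(1 / 2) * (w l p.1 * w l p.2) * (s (t + p.1) - s (t + p.2)) ^ 2 ∂((mw l).prod (mw l)) := by
  have hb : ∀ x ∈ Ioc (0 : ℝ) l, |s (t + x)| ≤ M := fun x hx =>
    hM _ (by linarith [ht.1, hx.1]) (by linarith [ht.2, hx.2])
  have hsm : Measurable fun x => s (t + x) := hs.comp (measurable_const.add measurable_id)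
  have hl2 : 0 ≤ l / 2 := by linarith
  have i1 : Integrable (fun x => w l x * s (t + x)) (mw l) :=
    ibd ((w_meas l).mul hsm) (l / 2 * M) (ae1 fun x hx => by
      rw [abs_mul]
      exact mul_le_mul (w_bd hx) (hb x hx) (abs_nonneg _) hl2)
  have i2 : Integrable (fun x => w l x * s (t + x) ^ 2) (mw l) :=
    ibd ((w_meas l).mul (hsm.pow_const 2)) (l / 2 * M ^ 2) (ae1 fun x hx => by
      rw [abs_mul, abs_pow]
      exact mul_le_mul (w_bd hx) (pow_le_pow_left₀ (abs_nonneg _) (hb x hx) 2) (by positivity) hl2)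
  have i0 : Integrable (fun x => w l x) (mw l) :=
    ibd (w_meas l) (l / 2) (ae1 fun x hx => w_bd hx)
  have e1 : (∫ x, w l x * s (t + x) ∂(mw l)) ^ 2 =
      ∫ p, (w l p.1 * s (t + p.1)) * (w l p.2 * s (t + p.2)) ∂((mw l).prod (mw l)) := by
    rw [integral_prod_mul (μ := mw l) (ν := mw l) (fun x => w l x * s (t + x)) (fun x => w l x * s (t + x)), sq]
  have e2 : (0 : ℝ) = ∫ p, (w l p.1 * s (t + p.1) ^ 2) * w l p.2 ∂((mw l).prod (mw l)) := by
    rw [integral_prod_mul (μ := mw l) (ν := mw l) (fun x => w l x * s (t + x) ^ 2) (fun x => w l x), w_int hl, mul_zero]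
  have e3 : (0 : ℝ) = ∫ p, w l p.1 * (w l p.2 * s (t + p.2) ^ 2) ∂((mw l).prod (mw l)) := by
    rw [integral_prod_mul (μ := mw l) (ν := mw l) (fun x => w l x) (fun x => w l x * s (t + x) ^ 2), w_int hl, zero_mul]
  have j1 := i1.mul_prod i1
  have j2 := i2.mul_prod i0
  have j3 := i0.mul_prod i2
  have e4 : ∫ p, -(1 / 2) * (w l p.1 * w l p.2) * (s (t + p.1) - s (t + p.2)) ^ 2 ∂((mw l).prod (mw l)) =
      (∫ p, (w l p.1 * s (t + p.1)) * (w l p.2 * s (t + p.2)) ∂((mw l).prod (mw l))) -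
      1 / 2 * (∫ p, (w l p.1 * s (t + p.1) ^ 2) * w l p.2 ∂((mw l).prod (mw l))) -
      1 / 2 * (∫ p, w l p.1 * (w l p.2 * s (t + p.2) ^ 2) ∂((mw l).prod (mw l))) := by
    have j12 : Integrable (fun p : ℝ × ℝ => (w l p.1 * s (t + p.1)) * (w l p.2 * s (t + p.2)) -
        1 / 2 * ((w l p.1 * s (t + p.1) ^ 2) * w l p.2)) ((mw l).prod (mw l)) := j1.sub (j2.const_mul (1 / 2))
    have k1 := integral_sub j1 (j2.const_mul (1 / 2))
    have k2 := integral_sub j12 (j3.const_mul (1 / 2))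
    rw [← integral_const_mul, ← integral_const_mul, ← k1, ← k2]
    refine integral_congr_ae (Eventually.of_forall fun p => ?_)
    show -(1 / 2) * (w l p.1 * w l p.2) * (s (t + p.1) - s (t + p.2)) ^ 2 =
      (w l p.1 * s (t + p.1)) * (w l p.2 * s (t + p.2)) - 1 / 2 * ((w l p.1 * s (t + p.1) ^ 2) * w l p.2) -
        1 / 2 * (w l p.1 * (w l p.2 * s (t + p.2) ^ 2))
    ring
  rw [e4, ← e2, ← e3, e1]
  ring

theorem core (hs : Measurable s) (hl : 0 < l)
    (hM : ∀ u, T ≤ u → u ≤ 2 * T + l → |s u| ≤ M) :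
    Integrable (fun t => (∫ x, w l x * s (t + x) ∂(mw l)) ^ 2) (mt T) ∧
    ∀ c : ℝ, ∫ t, (∫ x, w l x * s (t + x) ∂(mw l)) ^ 2 ∂(mt T) =
      ∫ x, ∫ y, -(1 / 2) * (w l x * w l y) * ((∫ t, (s (t + x) - s (t + y)) ^ 2 ∂(mt T)) - c) ∂(mw l) ∂(mw l) := by
  have hl2 : 0 ≤ l / 2 := by linarith
  have hmeas : Measurable fun z : ℝ × (ℝ × ℝ) =>
      -(1 / 2) * (w l z.2.1 * w l z.2.2) * (s (z.1 + z.2.1) - s (z.1 + z.2.2)) ^ 2 := by
    have h1 : Measurable fun z : ℝ × (ℝ × ℝ) => w l z.2.1 := (w_meas l).comp (by fun_prop)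
    have h2 : Measurable fun z : ℝ × (ℝ × ℝ) => w l z.2.2 := (w_meas l).comp (by fun_prop)
    have h3 : Measurable fun z : ℝ × (ℝ × ℝ) => s (z.1 + z.2.1) := hs.comp (by fun_prop)
    have h4 : Measurable fun z : ℝ × (ℝ × ℝ) => s (z.1 + z.2.2) := hs.comp (by fun_prop)
    exact (measurable_const.mul (h1.mul h2)).mul ((h3.sub h4).pow_const 2)
  have hint : Integrable (fun z : ℝ × (ℝ × ℝ) =>
      -(1 / 2) * (w l z.2.1 * w l z.2.2) * (s (z.1 + z.2.1) - s (z.1 + z.2.2)) ^ 2)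
      ((mt T).prod ((mw l).prod (mw l))) := by
    refine ibd hmeas (1 / 2 * (l / 2 * (l / 2)) * (2 * M) ^ 2) (ae3 fun t ht x hx y hy => ?_)
    have hb : ∀ x ∈ Ioc (0 : ℝ) l, |s (t + x)| ≤ M := fun x hx =>
      hM _ (by linarith [ht.1, hx.1]) (by linarith [ht.2, hx.2])
    show |-(1 / 2) * (w l x * w l y) * (s (t + x) - s (t + y)) ^ 2| ≤ _
    rw [abs_mul, abs_mul, abs_mul, abs_pow, abs_neg, abs_of_pos (by norm_num : (0 : ℝ) < 1 / 2)]
    have h1 : |s (t + x) - s (t + y)| ≤ 2 * M := by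
      refine (abs_sub _ _).trans ?_
      linarith [hb x hx, hb y hy]
    have h2 : |w l x| * |w l y| ≤ l / 2 * (l / 2) := mul_le_mul (w_bd hx) (w_bd hy) (abs_nonneg _) hl2
    exact mul_le_mul (mul_le_mul_of_nonneg_left h2 (by norm_num)) (pow_le_pow_left₀ (abs_nonneg _) h1 2)
      (by positivity) (by positivity)
  have hae : ∀ᵐ t ∂(mt T), (∫ x, w l x * s (t + x) ∂(mw l)) ^ 2 =
      ∫ p, -(1 / 2) * (w l p.1 * w l p.2) * (s (t + p.1) - s (t + p.2)) ^ 2 ∂((mw l).prod (mw l)) :=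
    ae_restrict_of_forall_mem measurableSet_Ioc fun t ht => sq_eq hs hl hM ht
  refine ⟨(hint.integral_prod_left).congr (hae.mono fun t ht => ht.symm), fun c => ?_⟩
  rw [integral_congr_ae hae]
  rw [integral_integral_swap (f := fun (t : ℝ) (p : ℝ × ℝ) =>
    -(1 / 2) * (w l p.1 * w l p.2) * (s (t + p.1) - s (t + p.2)) ^ 2) hint]
  have hJ : ∀ p : ℝ × ℝ, ∫ t, -(1 / 2) * (w l p.1 * w l p.2) * (s (t + p.1) - s (t + p.2)) ^ 2 ∂(mt T) =
      -(1 / 2) * (w l p.1 * w l p.2) * ∫ t, (s (t + p.1) - s (t + p.2)) ^ 2 ∂(mt T) := fun p =>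
    integral_const_mul _ _
  have hI1 : Integrable (fun p : ℝ × ℝ => -(1 / 2) * (w l p.1 * w l p.2) *
      ∫ t, (s (t + p.1) - s (t + p.2)) ^ 2 ∂(mt T)) ((mw l).prod (mw l)) := by
    refine (hint.integral_prod_right).congr (Eventually.of_forall fun p => ?_)
    exact hJ p
  have i0 : Integrable (fun x => w l x) (mw l) :=
    ibd (w_meas l) (l / 2) (ae1 fun x hx => w_bd hx)
  have hI2 : Integrable (fun p : ℝ × ℝ => (-(1 / 2) * c) * (w l p.1 * w l p.2)) ((mw l).prod (mw l)) :=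
    (i0.mul_prod i0).const_mul _
  have hz : ∫ p, (-(1 / 2) * c) * (w l p.1 * w l p.2) ∂((mw l).prod (mw l)) = 0 := by
    rw [integral_const_mul, integral_prod_mul (μ := mw l) (ν := mw l) (fun x => w l x) (fun x => w l x), w_int hl]
    ring
  have hfin : ∫ p, (∫ t, -(1 / 2) * (w l p.1 * w l p.2) * (s (t + p.1) - s (t + p.2)) ^ 2 ∂(mt T))
        ∂((mw l).prod (mw l)) =
      ∫ p, -(1 / 2) * (w l p.1 * w l p.2) * ((∫ t, (s (t + p.1) - s (t + p.2)) ^ 2 ∂(mt T)) - c)
        ∂((mw l).prod (mw l)) := by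
    simp_rw [hJ]
    rw [← sub_zero (∫ p, -(1 / 2) * (w l p.1 * w l p.2) * (∫ t, (s (t + p.1) - s (t + p.2)) ^ 2 ∂(mt T))
      ∂((mw l).prod (mw l))), ← hz, ← integral_sub hI1 hI2]
    refine integral_congr_ae (Eventually.of_forall fun p => ?_)
    simp only []
    ring
  rw [hfin]
  have hI3 : Integrable (fun p : ℝ × ℝ => -(1 / 2) * (w l p.1 * w l p.2) *
      ((∫ t, (s (t + p.1) - s (t + p.2)) ^ 2 ∂(mt T)) - c)) ((mw l).prod (mw l)) := by
    refine (hI1.sub hI2).congr (Eventually.of_forall fun p => ?_)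
    simp only [Pi.sub_apply]
    ring
  rw [integral_prod _ hI3]

end core

theorem sg_meas {N : ℝ → ℕ} (hN : Monotone N) : Measurable (sg N) := by
  have h1 : Measurable fun t => (N t : ℝ) := measurable_from_nat.comp hN.measurable
  have h2 : Measurable Mf := by unfold Mf; fun_prop
  exact h1.sub h2

/-- the integrable singularity -/
theorem log_ii (x l : ℝ) : IntervalIntegrable (fun y => Real.log (x - y)) volume 0 l := by
  have h : IntervalIntegrable Real.log volume x (x - l) := intervalIntegral.intervalIntegrable_log'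
  have h2 := h.comp_sub_left x
  rwa [sub_self, sub_sub_cancel] at h2

theorem log_int {x l : ℝ} (hx : x ∈ Ioc (0 : ℝ) l) :
    ∫ y in (0 : ℝ)..l, (Real.log l - Real.log (x - y)) ≤ 2 * l := by
  have hl : 0 < l := hx.1.trans_le hx.2
  rw [intervalIntegral.integral_sub (by simp) (log_ii x l), intervalIntegral.integral_const,
    intervalIntegral.integral_comp_sub_left (fun u => Real.log u) x, integral_log]
  have h1 : x * (Real.log l - Real.log x) ≤ l - x := by
    have h := Real.log_le_sub_one_of_pos (show 0 < l / x by exact div_pos hl hx.1)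
    rw [Real.log_div hl.ne' hx.1.ne'] at h
    calc x * (Real.log l - Real.log x) ≤ x * (l / x - 1) := mul_le_mul_of_nonneg_left h hx.1.le
      _ = l - x := by have := hx.1.ne'; field_simp
  have h2 : (l - x) * (Real.log l - Real.log (l - x)) ≤ x := by
    rcases eq_or_lt_of_le hx.2 with h | h
    · rw [h, sub_self, zero_mul]
      exact hl.le
    · have h0 : 0 < l - x := by linarith
      have h3 := Real.log_le_sub_one_of_pos (show 0 < l / (l - x) by exact div_pos hl h0)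
      rw [Real.log_div hl.ne' h0.ne'] at h3
      calc (l - x) * (Real.log l - Real.log (l - x)) ≤ (l - x) * (l / (l - x) - 1) :=
            mul_le_mul_of_nonneg_left h3 h0.le
        _ = x := by have := h0.ne'; field_simp; ring
  have h4 : Real.log (x - l) = Real.log (l - x) := by
    rw [← Real.log_neg_eq_log (l - x), neg_sub]
  rw [h4]
  simp only [sub_zero, smul_eq_mul]
  linarith

/-- the number variance against its size -/
theorem Vv_bd {T Λ x y : ℝ} (hT : 10 ≤ T) (hΛ : 1 ≤ Λ) (hx : x ∈ Ioc (0 : ℝ) (ell T Λ))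
    (hy : y ∈ Ioc (0 : ℝ) (ell T Λ)) (hne : y ≠ x) :
    |Vv (Real.log T) (x, y) - 1 / Real.pi ^ 2 * Real.log Λ| ≤
      1 / Real.pi ^ 2 * (Real.log 2 + (Real.log (ell T Λ) - Real.log (x - y))) := by
  have hL : 0 < Real.log T := Real.log_pos (by linarith)
  have hpi := Real.pi_pos
  have hl : 0 < ell T Λ := hx.1.trans_le hx.2
  obtain ⟨d, hd⟩ : ∃ d, d = |x - y| := ⟨_, rfl⟩
  have hd0 : 0 < d := by rw [hd]; exact abs_pos.2 (sub_ne_zero.2 hne.symm)
  have hdl : d ≤ ell T Λ := by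
    rw [hd, abs_le]
    constructor <;> linarith [hx.1, hx.2, hy.1, hy.2]
  have hs : |x - y| * Real.log T / (2 * Real.pi) = Λ * d / ell T Λ := by
    rw [← hd]
    unfold ell
    field_simp
  have hlog : Real.log (x - y) = Real.log d := by rw [hd, Real.log_abs]
  have hs0 : 0 < Λ * d / ell T Λ := by positivity
  have hs1 : Λ * d / ell T Λ ≤ Λ := by
    rw [div_le_iff₀ hl]
    exact mul_le_mul_of_nonneg_left hdl (by linarith)
  have e1 : Real.log (1 + Λ * d / ell T Λ) ≤ Real.log 2 + Real.log Λ := by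
    rw [← Real.log_mul (by norm_num) (by linarith)]
    exact Real.log_le_log (by linarith) (by linarith)
  have e2 : Real.log Λ + Real.log d - Real.log (ell T Λ) ≤ Real.log (1 + Λ * d / ell T Λ) := by
    rw [← Real.log_mul (by linarith) hd0.ne', ← Real.log_div (by positivity) hl.ne']
    exact Real.log_le_log hs0 (by linarith)
  have e3 : Real.log d ≤ Real.log (ell T Λ) := Real.log_le_log hd0 hdl
  have e4 : 0 ≤ Real.log 2 := Real.log_nonneg (by norm_num)
  have hv : Vv (Real.log T) (x, y) - 1 / Real.pi ^ 2 * Real.log Λ =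
      1 / Real.pi ^ 2 * (Real.log (1 + Λ * d / ell T Λ) - Real.log Λ) := by
    unfold Vv
    rw [hs]
    ring
  rw [hv, abs_mul, abs_of_pos (by positivity : 0 < 1 / Real.pi ^ 2), hlog]
  apply mul_le_mul_of_nonneg_left _ (by positivity)
  rw [abs_le]
  constructor <;> linarith

theorem t_GM : S_GM := by
  intro N g C1 hC1 hN hMom B hB
  obtain ⟨C, T1, hC, hT1, hmom⟩ := hMom.2 2 (2 * Real.pi * B)
  refine ⟨C + 1, T1, by positivity, hT1, ?_⟩
  intro T hT Λ hΛ hΛB
  have hT10 : 10 ≤ T := hT1.trans hT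
  have hL : 0 < Real.log T := Real.log_pos (by linarith)
  have hpi := Real.pi_pos
  have hl : 0 < ell T Λ := by unfold ell; positivity
  have hlL : ell T Λ * Real.log T = 2 * Real.pi * Λ := by unfold ell; field_simp
  have hlB : ell T Λ ≤ 2 * Real.pi * B := by
    unfold ell
    rw [div_le_iff₀ hL]
    calc 2 * Real.pi * Λ ≤ 2 * Real.pi * (B * Real.log T) := mul_le_mul_of_nonneg_left hΛB (by positivity)
      _ = 2 * Real.pi * B * Real.log T := by ring
  obtain ⟨l, hldef⟩ : ∃ l, l = ell T Λ := ⟨_, rfl⟩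
  rw [← hldef] at hl hlL hlB ⊢
  have hlog1 : 0 ≤ Real.log (2 * T + l) := Real.log_nonneg (by linarith)
  have hM : ∀ u, T ≤ u → u ≤ 2 * T + l → |sg N u| ≤ C1 * Real.log (2 * T + l) := by
    intro u h1 h2
    refine (hN.rvm u (by linarith)).trans ?_
    apply mul_le_mul_of_nonneg_left _ (by linarith)
    exact Real.log_le_log (by linarith) h2
  obtain ⟨hcI, hcE⟩ := core (sg_meas hN.mono) hl hM
  have hG : ∀ t : ℝ, Gl N l t = 1 / l ^ 2 * ∫ x, w l x * sg N (t + x) ∂(mw l) := by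
    intro t
    unfold Gl w
    rw [intervalIntegral.integral_of_le hl.le]
  have hG2 : (fun t => Gl N l t ^ 2) = fun t => (1 / l ^ 4) * (∫ x, w l x * sg N (t + x) ∂(mw l)) ^ 2 := by
    funext t
    rw [hG t, mul_pow]
    congr 1
    rw [div_pow, one_pow, ← pow_mul]
  have hT2 : T ≤ 2 * T := by linarith
  refine ⟨?_, ?_⟩
  swap
  · rw [hG2, integrableOn_Icc_iff_integrableOn_Ioc]
    exact hcI.const_mul _
  rw [hG2, intervalIntegral.integral_of_le hT2, integral_const_mul]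
  rw [hcE (T * (1 / Real.pi ^ 2 * Real.log Λ))]
  obtain ⟨Q, hQ⟩ : ∃ Q : ℝ, Q = (1 + Real.log Λ) ^ (1 / 2 : ℝ) := ⟨_, rfl⟩
  have hlogΛ : 0 ≤ Real.log Λ := Real.log_nonneg hΛ
  have hQ1 : 1 ≤ Q := by
    rw [hQ]
    exact Real.one_le_rpow (by linarith) (by norm_num)
  -- the second moment of the increments
  have hJ : ∀ x ∈ Ioc (0 : ℝ) l, ∀ y ∈ Ioc (0 : ℝ) l,
      |(∫ t, (sg N (t + x) - sg N (t + y)) ^ 2 ∂(mt T)) - T * Vv (Real.log T) (x, y)| ≤ T * (4 * C * Q) := by
    intro x hx y hy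
    have h := hmom T hT 2 ![1 / 2, -(1 / 2)] ![x, y] Λ (by
        rw [Fin.sum_univ_two]
        simp
        norm_num) (by
        rw [Fin.sum_univ_two]
        simp) hΛ (by
        intro i
        have hx' : 0 ≤ x ∧ x ≤ 2 * Real.pi * B ∧ x * Real.log T ≤ 2 * Real.pi * Λ :=
          ⟨hx.1.le, hx.2.trans hlB, by rw [← hlL]; exact mul_le_mul_of_nonneg_right hx.2 hL.le⟩
        have hy' : 0 ≤ y ∧ y ≤ 2 * Real.pi * B ∧ y * Real.log T ≤ 2 * Real.pi * Λ :=
          ⟨hy.1.le, hy.2.trans hlB, by rw [← hlL]; exact mul_le_mul_of_nonneg_right hy.2 hL.le⟩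
        fin_cases i
        · exact hx'
        · exact hy')
    have e1 : (∫ t in T..(2 * T), Gf N ![1 / 2, -(1 / 2)] ![x, y] t ^ 2) =
        1 / 4 * ∫ t, (sg N (t + x) - sg N (t + y)) ^ 2 ∂(mt T) := by
      rw [intervalIntegral.integral_of_le hT2, ← integral_const_mul]
      refine integral_congr_ae (Eventually.of_forall fun t => ?_)
      show Gf N ![1 / 2, -(1 / 2)] ![x, y] t ^ 2 = 1 / 4 * (sg N (t + x) - sg N (t + y)) ^ 2
      unfold Gf
      rw [Fin.sum_univ_two]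
      simp only [Matrix.cons_val_zero, Matrix.cons_val_one]
      ring
    have e2 : gM 2 (VL (Real.log T) ![1 / 2, -(1 / 2)] ![x, y]) = 1 / 4 * Vv (Real.log T) (x, y) := by
      have h1 : gM 2 (VL (Real.log T) ![1 / 2, -(1 / 2)] ![x, y]) = VL (Real.log T) ![1 / 2, -(1 / 2)] ![x, y] := by
        unfold gM
        simp
      rw [h1]
      unfold VL Vv
      simp only [Fin.sum_univ_two, Matrix.cons_val_zero, Matrix.cons_val_one, sub_self, abs_zero, zero_mul,
        zero_div, add_zero, Real.log_one, mul_zero, zero_add]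
      rw [abs_sub_comm y x]
      field_simp
      ring
    have e3 : ((((2 : ℕ) : ℝ) - 1) / 2) = (1 / 2 : ℝ) := by norm_num
    rw [e1, e2, e3, ← hQ] at h
    have hT0 : 0 < T := by linarith
    have e4 : (∫ t, (sg N (t + x) - sg N (t + y)) ^ 2 ∂(mt T)) - T * Vv (Real.log T) (x, y) =
        (4 * T) * (1 / T * (1 / 4 * ∫ t, (sg N (t + x) - sg N (t + y)) ^ 2 ∂(mt T)) - 1 / 4 * Vv (Real.log T) (x, y)) := by
      field_simp
    rw [e4, abs_mul, abs_of_pos (by positivity : 0 < 4 * T)]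
    calc 4 * T * _ ≤ 4 * T * (C * Q) := mul_le_mul_of_nonneg_left h (by positivity)
      _ = T * (4 * C * Q) := by ring
  have hT0 : 0 < T := by linarith
  have hpi2 : 9 ≤ Real.pi ^ 2 := by
    have := Real.pi_gt_three
    nlinarith
  have hinner : ∀ x ∈ Ioc (0 : ℝ) l, |∫ y, -(1 / 2) * (w l x * w l y) *
      ((∫ t, (sg N (t + x) - sg N (t + y)) ^ 2 ∂(mt T)) - T * (1 / Real.pi ^ 2 * Real.log Λ)) ∂(mw l)| ≤
      l ^ 2 / 8 * (T * (l * (4 * C * Q + 1))) := by
    intro x hx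
    have hgi : Integrable (fun y => l ^ 2 / 8 * (T * (4 * C * Q +
        1 / Real.pi ^ 2 * (Real.log 2 + (Real.log l - Real.log (x - y)))))) (mw l) := by
      have h1 : Integrable (fun y => Real.log (x - y)) (mw l) :=
        (intervalIntegrable_iff_integrableOn_Ioc_of_le hl.le).1 (log_ii x l)
      exact ((((integrable_const _).add (((integrable_const _).add
        ((integrable_const _).sub h1)).const_mul _))).const_mul _).const_mul _
    have hle : ∀ᵐ y ∂(mw l), ‖-(1 / 2) * (w l x * w l y) *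
        ((∫ t, (sg N (t + x) - sg N (t + y)) ^ 2 ∂(mt T)) - T * (1 / Real.pi ^ 2 * Real.log Λ))‖ ≤
        l ^ 2 / 8 * (T * (4 * C * Q + 1 / Real.pi ^ 2 * (Real.log 2 + (Real.log l - Real.log (x - y))))) := by
      have hne : ∀ᵐ y ∂(mw l), y ≠ x := by
        refine ae_restrict_of_ae ?_
        exact (measure_eq_zero_iff_ae_notMem (s := {x})).1 (by simp)
      have hmem : ∀ᵐ y ∂(mw l), y ∈ Ioc (0 : ℝ) l := ae_restrict_mem measurableSet_Ioc
      filter_upwards [hne, hmem] with y hyx hy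
      have h1 := hJ x hx y hy
      have h2 := Vv_bd (x := x) (y := y) hT10 hΛ (by rw [← hldef]; exact hx) (by rw [← hldef]; exact hy) hyx
      rw [← hldef] at h2
      have h3 : |(∫ t, (sg N (t + x) - sg N (t + y)) ^ 2 ∂(mt T)) - T * (1 / Real.pi ^ 2 * Real.log Λ)| ≤
          T * (4 * C * Q + 1 / Real.pi ^ 2 * (Real.log 2 + (Real.log l - Real.log (x - y)))) := by
        have e : (∫ t, (sg N (t + x) - sg N (t + y)) ^ 2 ∂(mt T)) - T * (1 / Real.pi ^ 2 * Real.log Λ) =
            ((∫ t, (sg N (t + x) - sg N (t + y)) ^ 2 ∂(mt T)) - T * Vv (Real.log T) (x, y)) +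
            T * (Vv (Real.log T) (x, y) - 1 / Real.pi ^ 2 * Real.log Λ) := by ring
        rw [e]
        refine (abs_add_le _ _).trans ?_
        rw [abs_mul T, abs_of_pos hT0]
        have h4 := mul_le_mul_of_nonneg_left h2 hT0.le
        rw [mul_add]
        linarith
      rw [Real.norm_eq_abs, abs_mul, abs_mul, abs_mul, abs_neg, abs_of_pos (by norm_num : (0 : ℝ) < 1 / 2)]
      have h5 : |w l x| * |w l y| ≤ l / 2 * (l / 2) :=
        mul_le_mul (w_bd hx) (w_bd hy) (abs_nonneg _) (by positivity)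
      calc 1 / 2 * (|w l x| * |w l y|) * _ ≤ 1 / 2 * (l / 2 * (l / 2)) * _ :=
            mul_le_mul (mul_le_mul_of_nonneg_left h5 (by norm_num)) h3 (abs_nonneg _) (by positivity)
        _ = _ := by ring
    have hmain := norm_integral_le_of_norm_le hgi hle
    rw [Real.norm_eq_abs] at hmain
    refine hmain.trans ?_
    rw [integral_const_mul, integral_const_mul]
    apply mul_le_mul_of_nonneg_left _ (by positivity)
    apply mul_le_mul_of_nonneg_left _ hT0.le
    have h1 : Integrable (fun y => Real.log l - Real.log (x - y)) (mw l) :=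
      (integrable_const _).sub ((intervalIntegrable_iff_integrableOn_Ioc_of_le hl.le).1 (log_ii x l))
    have h1' : Integrable (fun y => Real.log 2 + (Real.log l - Real.log (x - y))) (mw l) :=
      (integrable_const _).add h1
    have k1 := integral_add (integrable_const (μ := mw l) (4 * C * Q)) (h1'.const_mul (1 / Real.pi ^ 2))
    have k2 := integral_add (integrable_const (μ := mw l) (Real.log 2)) h1
    have k3 : ∫ y, 1 / Real.pi ^ 2 * (Real.log 2 + (Real.log l - Real.log (x - y))) ∂(mw l) =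
        1 / Real.pi ^ 2 * ∫ y, (Real.log 2 + (Real.log l - Real.log (x - y))) ∂(mw l) := integral_const_mul _ _
    rw [k1, k3, k2, integral_const, integral_const]
    have hvol : (mw l).real univ = l := by
      simp [Measure.real, mw, hl.le]
    rw [hvol, ← intervalIntegral.integral_of_le hl.le]
    have h2 := log_int hx
    have h3 : Real.log 2 ≤ 1 := by linarith [Real.log_two_lt_d9]
    have h4 : 1 / Real.pi ^ 2 ≤ 1 / 9 := one_div_le_one_div_of_le (by norm_num) hpi2
    simp only [smul_eq_mul]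
    have h5 : 0 ≤ l * Real.log 2 + 2 * l := by
      have := Real.log_nonneg (show (1 : ℝ) ≤ 2 by norm_num)
      positivity
    have h6 : 1 / Real.pi ^ 2 * (l * Real.log 2 + ∫ y in (0 : ℝ)..l, (Real.log l - Real.log (x - y))) ≤ l := by
      calc 1 / Real.pi ^ 2 * (l * Real.log 2 + ∫ y in (0 : ℝ)..l, (Real.log l - Real.log (x - y)))
          ≤ 1 / Real.pi ^ 2 * (l * Real.log 2 + 2 * l) :=
            mul_le_mul_of_nonneg_left (by linarith) (by positivity)
        _ ≤ 1 / 9 * (l * Real.log 2 + 2 * l) := mul_le_mul_of_nonneg_right h4 h5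
        _ ≤ l := by nlinarith
    rw [mul_add l, mul_one]
    linarith
  have houter : |∫ x, ∫ y, -(1 / 2) * (w l x * w l y) *
      ((∫ t, (sg N (t + x) - sg N (t + y)) ^ 2 ∂(mt T)) - T * (1 / Real.pi ^ 2 * Real.log Λ)) ∂(mw l) ∂(mw l)| ≤
      l * (l ^ 2 / 8 * (T * (l * (4 * C * Q + 1)))) := by
    have h := norm_integral_le_of_norm_le (μ := mw l) (integrable_const (l ^ 2 / 8 * (T * (l * (4 * C * Q + 1)))))
      (ae1 (l := l) fun x hx => by
        rw [Real.norm_eq_abs]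
        exact hinner x hx)
    rw [Real.norm_eq_abs, integral_const] at h
    have hvol : (mw l).real univ = l := by
      simp [Measure.real, mw, hl.le]
    rwa [hvol, smul_eq_mul] at h
  have hfinal := (le_abs_self _).trans houter
  rw [← hQ]
  calc 1 / l ^ 4 * _ ≤ 1 / l ^ 4 * (l * (l ^ 2 / 8 * (T * (l * (4 * C * Q + 1))))) :=
        mul_le_mul_of_nonneg_left hfinal (by positivity)
    _ = T * (4 * C * Q + 1) / 8 := by field_simp
    _ ≤ (C + 1) * T * Q := by
      have h1 : T * 1 ≤ T * Q := mul_le_mul_of_nonneg_left hQ1 hT0.le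
      have h2 : 0 ≤ T * (C * Q) := by positivity
      nlinarith

end

end Pool.Agent.U411.MV8
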